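import Mathlib
import Pool.Agent.H561R3.Om.Defs
import Pool.Agent.H561R3.Om.Final

set_option autoImplicit false

namespace Pool.Agent.Results.MP_f476d2_lc.CoCeOmegaRandom

open Pool.Agent.H561R3.Om

/-- If `U` is a prefix-free machine that is universal by adjunction and `X` is a co-c.e. set of
binary strings with `Ω_U[X] > 0`, then the real number `Ω_U[X]` is Martin-Löf random. -/
theorem result (U : List Bool →. List Bool) (hU : UniversalByAdjunction U)
    (X : Set (List Bool)) (hX : REPred fun x => x ∉ X) (hpos : 0 < Omega U X) :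
    MLRandomReal (Omega U X) := by
  obtain ⟨h1, M, σ, _, _, h4, _, _, h7⟩ := hU
  refine main_general U h1 (fun N hN => ?_) X hX hpos
  obtain ⟨e, rfl⟩ := h4 N hN
  exact ⟨σ e, h7 e⟩

end Pool.Agent.Results.MP_f476d2_lc.CoCeOmegaRandom
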